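import Pool.Agent.H133.ZM.Stm

/-!
# ZM/LB0: a colouring of the complete graph on `n ≤ 3 m - 2` vertices
-/

set_option autoImplicit false

namespace Pool.Agent.H280.ZM

open Finset
open Pool.Agent.H133.ZM

theorem true_case {n k : ℕ} {G : SimpleGraph (Fin n)} {M : Finset (Sym2 (Fin n))} (hM : IsM G M)
    (h : ∀ e ∈ M, ∃ v ∈ e, (v : ℕ) < k) : M.card ≤ k := by
  classical
  have h1 : ∀ e : Sym2 (Fin n), ∃ v : ℕ, e ∈ M → ∃ w : Fin n, w ∈ e ∧ (w : ℕ) = v ∧ v < k := by
    intro e
    by_cases he : e ∈ M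
    · obtain ⟨v, hv, hvk⟩ := h e he
      exact ⟨v, fun _ => ⟨v, hv, rfl, hvk⟩⟩
    · exact ⟨0, fun h2 => absurd h2 he⟩
  choose g hg using h1
  have h2 : M.card ≤ (Finset.range k).card := by
    refine Finset.card_le_card_of_injOn g ?_ ?_
    · intro e he
      obtain ⟨w, -, -, hw⟩ := hg e he
      exact mem_coe.2 (mem_range.2 hw)
    · intro e he f hf hef
      by_contra hne
      obtain ⟨w, hw1, hw2, -⟩ := hg e he
      obtain ⟨w', hw1', hw2', -⟩ := hg f hf
      have h3 : w = w' := by
        apply Fin.ext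
        rw [hw2, hw2']
        exact hef
      rw [← h3] at hw1'
      exact hM.2 e he f hf hne w hw1 hw1'
  rw [Finset.card_range] at h2
  exact h2

theorem false_case {n k : ℕ} {G : SimpleGraph (Fin n)} {M : Finset (Sym2 (Fin n))} (hM : IsM G M)
    (h : ∀ e ∈ M, ∀ v ∈ e, k ≤ ((v : Fin n) : ℕ)) : 2 * M.card ≤ n - k := by
  classical
  have h1 : ∀ e ∈ M, e.toFinset.card = 2 := by
    intro e he
    exact Sym2.card_toFinset_of_not_isDiag e (G.not_isDiag_of_mem_edgeSet (hM.1 e he))
  have h2 : (M.biUnion fun e => e.toFinset).card = 2 * M.card := by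
    rw [Finset.card_biUnion]
    · rw [Finset.sum_congr rfl h1, Finset.sum_const, smul_eq_mul, mul_comm]
    · intro e he f hf hne
      rw [Function.onFun, Finset.disjoint_left]
      intro v hv hv'
      rw [Sym2.mem_toFinset] at hv hv'
      exact hM.2 e he f hf hne v hv hv'
  have h3 : (M.biUnion fun e => e.toFinset).card ≤ (Finset.Ico k n).card := by
    refine Finset.card_le_card_of_injOn (fun v : Fin n => (v : ℕ)) ?_ ?_
    · intro v hv
      rw [mem_coe, mem_biUnion] at hv
      obtain ⟨e, he, hve⟩ := hv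
      rw [Sym2.mem_toFinset] at hve
      exact mem_coe.2 (mem_Ico.2 ⟨h e he v hve, v.2⟩)
    · intro v _ w _ hvw
      exact Fin.ext hvw
  rw [h2, Nat.card_Ico] at h3
  exact h3

theorem t_LB0 : S_LB0 := by
  classical
  intro m n hm hn
  refine ⟨fun e => decide (∃ v ∈ e, ((v : Fin n) : ℕ) < m - 1), ?_⟩
  rintro M hM hMm ⟨b, hb⟩
  cases b with
  | true =>
    have h1 := true_case (k := m - 1) hM (fun e he => of_decide_eq_true (hb e he))
    omega
  | false =>
    have h1 := false_case (k := m - 1) hM (fun e he v hv => by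
      have h2 := of_decide_eq_false (hb e he)
      by_contra h3
      exact h2 ⟨v, hv, not_le.1 h3⟩)
    omega

end Pool.Agent.H280.ZM
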